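import Mathlib
import Pool.Agent.Results.MP_75ee99_lc.NotMonotone

open MeasureTheory Set Filter
open Pool.Agent.Results.MP_75ee99_lc.NotMonotone

namespace Pool.Agent.Results.MP_d94893_lc.LineFails

open Classical in
/-- `P(T_h > t)`: zero once the searcher has turned exactly at `h` (certain detection),
otherwise `(1-p)^(number of passes up to time t)` -/
noncomputable def surv (p : ℝ) (y : ℕ → ℝ) (h t : ℝ) : ℝ :=
  if ∃ i, y (i + 1) = h ∧ tau y (i + 1) ≤ t then 0 else (1 - p) ^ (passes y h ∩ Iic t).ncard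

/-- expected time of first detection `∫ P(T_h > t) dt` -/
noncomputable def ETc (p : ℝ) (y : ℕ → ℝ) (h : ℝ) : ENNReal :=
  ∫⁻ t in Ioi (0 : ℝ), ENNReal.ofReal (surv p y h t)

/-- competitive ratio -/
noncomputable def CRc (p : ℝ) (y : ℕ → ℝ) : ENNReal :=
  ⨆ (h : ℝ) (_ : 1 ≤ |h|), ENNReal.ofReal p * ETc p y h / ENNReal.ofReal |h|

lemma lower' (z : ℕ → ℝ) (hz : IsTraj z) (hc : CycMon z)
    (hC : ∀ h, 1 ≤ |h| → (∀ j, z j ≠ h) → ET (19 / 20) z h ≤ ENNReal.ofReal (46 / 5 * |h|)) : False := by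
  obtain ⟨z0, z1, -, zt⟩ := hz
  obtain ⟨e, he, hsg⟩ : ∃ e : ℕ → ℝ, (∀ i, (e i = 1 ∨ e i = -1) ∧ e (i + 1) = - e i) ∧
      ∀ i, e i * z i = |z i| := by
    obtain ⟨s, hs, hs1⟩ : ∃ s : ℝ, (s = 1 ∨ s = -1) ∧ -s * z 1 = |z 1| := by
      rcases le_total 0 (z 1) with h | h
      · exact ⟨-1, Or.inr rfl, by rw [abs_of_nonneg h]; ring⟩
      · exact ⟨1, Or.inl rfl, by rw [abs_of_nonpos h]; ring⟩
    have hp : ∀ i : ℕ, s * (-1) ^ i = 1 ∨ s * (-1) ^ i = -1 := by
      intro i
      rcases hs with rfl | rfl <;> rcases neg_one_pow_eq_or ℝ i with h | h <;> simp [h]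
    refine ⟨fun i => s * (-1) ^ i, fun i => ⟨hp i, by ring⟩, ?_⟩
    have : ∀ i : ℕ, s * (-1) ^ (i + 1) * z (i + 1) = |z (i + 1)| := by
      intro i
      induction i with
      | zero => simpa using hs1
      | succ n ih =>
        have h1 := (hc n).1
        have h2 : s * (-1) ^ (n + 1 + 1) = -(s * (-1) ^ (n + 1)) := by ring
        rw [h2]
        rcases hp (n + 1) with h | h <;> rw [h] at ih ⊢
        · have : 0 ≤ z (n + 1) := by linarith [abs_nonneg (z (n + 1))]
          have : z (n + 2) ≤ 0 := by nlinarith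
          rw [abs_of_nonpos this]; ring
        · have : z (n + 1) ≤ 0 := by linarith [abs_nonneg (z (n + 1))]
          have : 0 ≤ z (n + 2) := by nlinarith
          rw [abs_of_nonneg this]; ring
    intro i
    rcases i with _ | i
    · simp [z0]
    · exact this i
  have e2 : ∀ i k, e (i + 2 * k) = e i := by
    intro i k
    induction k with
    | zero => rfl
    | succ n ih => rw [show i + 2 * (n + 1) = i + 2 * n + 1 + 1 by ring, (he _).2, (he _).2, ih]; ring
  have xs : ∀ i, |z i| < |z (i + 2)| := by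
    intro i
    rcases i with _ | i
    · rw [z0, abs_zero, abs_pos]; intro h; have := (hc 0).1; rw [h] at this; simp at this
    · exact (hc i).2
  have xm : ∀ i k, |z i| ≤ |z (i + 2 * k)| := by
    intro i k
    induction k with
    | zero => exact le_rfl
    | succ n ih => exact ih.trans (xs _).le
  have key : ∀ i j, j ≤ i + 1 → e i * z j ≤ |z i| := by
    intro i j hj
    obtain ⟨m, hm⟩ := Nat.exists_eq_add_of_le hj
    rcases Nat.even_or_odd' m with ⟨k, rfl | rfl⟩
    · have h1 := e2 j k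
      rw [← hm, (he i).2] at h1
      have := hsg j
      rw [← h1] at this
      linarith [abs_nonneg (z j), abs_nonneg (z i)]
    · have hi : i = j + 2 * k := by omega
      rw [hi, e2, hsg]; exact xm j k
  have eabs : ∀ i (a : ℝ), |e i * a| = |a| := by
    intro i a; rcases (he i).1 with h | h <;> simp [h]
  have esq : ∀ i, e i * e i = 1 := by
    intro i; rcases (he i).1 with h | h <;> simp [h]
  have early : ∀ i g, |z i| < g → ∀ t ∈ passes z (e i * g),
      ∃ j, i + 1 ≤ j ∧ t = tau z j + |g - e i * z j| := by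
    rintro i g hg t ⟨j, hj, rfl⟩
    refine ⟨j, ?_, ?_⟩
    · by_contra hlt
      have k1 := key i j (by omega)
      have k2 := key i (j + 1) (by omega)
      rcases (he i).1 with h | h <;> rw [h] at hj k1 k2 <;> rcases mem_uIcc.1 hj with h' | h' <;>
        linarith [h'.1, h'.2]
    · rw [← eabs i (e i * g - z j), mul_sub, ← mul_assoc, esq, one_mul]
  have use : ∀ i g a b, (∀ j, e i * z j ≠ g) → 1 ≤ g → 0 ≤ a → a ≤ b → (∀ t ∈ passes z (e i * g), t = a ∨ b ≤ t) →
      19 / 20 * a + 1 / 20 * b ≤ 46 / 5 * g := by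
    intro i g a b hne hg ha hab hP
    have h1 : |e i * g| = g := by rw [eabs, abs_of_nonneg (by linarith)]
    have := (low _ a b ha hab hP).trans (hC (e i * g) (by rw [h1]; exact hg)
      (fun j hj => hne j (by rw [hj, ← mul_assoc, esq, one_mul])))
    rw [h1] at this
    exact (ENNReal.ofReal_le_ofReal_iff (by linarith)).1 this
  have big : ∀ r, ∃ k, 1 ≤ |z (r + 2 * k)| := by
    intro r
    by_contra hn
    push Not at hn
    obtain ⟨N, hN⟩ := eventually_atTop.1 (zt.eventually_gt_atTop 10)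
    have := use (r + 2 * N) 1 (tau z N) (tau z N) (fun j => by
      have k1 := key (r + 2 * j) j (by omega)
      rw [e2] at k1 ⊢
      exact (k1.trans_lt (hn j)).ne) le_rfl (tau_nn _ _) le_rfl (by
      intro t ht
      obtain ⟨j, hj, rfl⟩ := early _ 1 (hn N) t ht
      right
      have := tau_mono z (show N ≤ j by omega)
      linarith [abs_nonneg (1 - e (r + 2 * N) * z j)])
    linarith [hN N le_rfl]
  obtain ⟨N, hN⟩ : ∃ N, ∀ i, N ≤ i → 1 ≤ |z i| := by
    obtain ⟨k0, h0⟩ := big 0
    obtain ⟨k1, h1⟩ := big 1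
    refine ⟨2 * k0 + 2 * k1 + 1, fun i hi => ?_⟩
    rcases Nat.even_or_odd' i with ⟨k, rfl | rfl⟩
    · have := xm (0 + 2 * k0) (k - k0)
      rw [show 0 + 2 * k0 + 2 * (k - k0) = 2 * k by omega] at this; linarith
    · have := xm (1 + 2 * k1) (k - k1)
      rw [show 1 + 2 * k1 + 2 * (k - k1) = 2 * k + 1 by omega] at this; linarith
  have opp : ∀ i, e i * z (i + 1) = -|z (i + 1)| := by
    intro i; have := hsg (i + 1); rw [(he i).2] at this; linarith
  have ts : ∀ i, tau z (i + 1) = tau z i + |z i| + |z (i + 1)| := by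
    intro i
    rw [tau_succ, ← eabs i (z (i + 1) - z i), mul_sub, opp, hsg, abs_of_nonpos
      (by linarith [abs_nonneg (z i), abs_nonneg (z (i + 1))])]
    ring
  set A : ℕ → ℝ := fun i => tau z i + |z i| with hA
  have As : ∀ i, A (i + 1) = A i + 2 * |z (i + 1)| := by
    intro i; simp only [hA]; rw [ts]; ring
  have main : ∀ i, N ≤ i → A (i + 1) + 1 / 10 * |z (i + 2)| ≤ 83 / 10 * |z i| := by
    intro i hi
    have hx := hN i hi
    have step : ∀ g, |z i| < g → g < |z (i + 2)| →
        A (i + 1) + 1 / 10 * |z (i + 2)| ≤ 83 / 10 * g := by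
      intro g g1 g2
      have := use i g (A (i + 1) + g) (A (i + 2) - g) (fun j => by
          rcases le_or_gt j (i + 1) with hj | hj
          · exact ((key i j hj).trans_lt g1).ne
          obtain ⟨m, rfl⟩ := Nat.exists_eq_add_of_le (show i + 2 ≤ j from hj)
          rcases Nat.even_or_odd' m with ⟨k, rfl | rfl⟩
          · have h1 := hsg (i + 2 + 2 * k)
            rw [show i + 2 + 2 * k = i + 2 * (k + 1) by ring, e2] at h1
            rw [show i + 2 + 2 * k = i + 2 * (k + 1) by ring, h1]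
            have h2 := xm (i + 2) k
            rw [show i + 2 + 2 * k = i + 2 * (k + 1) by ring] at h2
            exact (g2.trans_le h2).ne'
          · have h1 := opp (i + 2 * (k + 1))
            rw [e2] at h1
            rw [show i + 2 + (2 * k + 1) = i + 2 * (k + 1) + 1 by ring, h1]
            have := abs_nonneg (z (i + 2 * (k + 1) + 1))
            exact ne_of_lt (by linarith)) (by linarith)
        (by have := tau_nn z (i + 1); have := abs_nonneg (z (i + 1)); simp only [hA]; linarith)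
        (by rw [As (i + 1)]; linarith) (by
          intro t ht
          obtain ⟨j, hj, rfl⟩ := early i g g1 t ht
          rcases hj.eq_or_lt with rfl | hj
          · left
            rw [opp, abs_of_nonneg (by linarith [abs_nonneg (z (i + 1))])]
            simp only [hA]; ring
          right
          rcases (show i + 2 ≤ j from hj).eq_or_lt with rfl | hj
          · have := hsg (i + 2 * 1)
            rw [e2] at this
            rw [this, abs_of_nonpos (by linarith)]
            simp only [hA]; linarith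
          · have h1 := tau_mono z (show i + 2 + 1 ≤ j from hj)
            rw [ts] at h1
            simp only [hA]
            linarith [abs_nonneg (g - e i * z j), abs_nonneg (z (i + 2 + 1))])
      rw [As (i + 1)] at this
      linarith
    refine le_of_forall_pos_le_add fun ε hε => ?_
    have := step (min (|z i| + ε / 10) ((|z i| + |z (i + 2)|) / 2))
      (lt_min (by linarith) (by linarith [xs i])) ((min_le_right _ _).trans_lt (by linarith [xs i]))
    linarith [min_le_left (|z i| + ε / 10) ((|z i| + |z (i + 2)|) / 2)]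
  have Apos : ∀ i, 0 < A (N + i) := by
    intro i; have := tau_nn z (N + i); have := hN (N + i) (by omega); simp only [hA]; linarith
  set ρ : ℕ → ℝ := fun i => A (N + i + 1) / A (N + i) with hρ
  have ρ1 : ∀ i, 1 ≤ ρ i := by
    intro i; simp only [hρ]; rw [le_div_iff₀ (Apos i), As]; linarith [abs_nonneg (z (N + i + 1))]
  have bdd : BddBelow (range ρ) := ⟨1, by rintro _ ⟨i, rfl⟩; exact ρ1 i⟩
  set r := ⨅ i, ρ i with hr
  have r1 : 1 ≤ r := le_ciInf ρ1
  have rle : ∀ i, r * A (N + i) ≤ A (N + i + 1) := fun i =>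
    (le_div_iff₀ (Apos i)).1 (ciInf_le bdd i)
  obtain ⟨i, hi⟩ := exists_lt_of_ciInf_lt (show ⨅ i, ρ i < r + 1 / 1000 by linarith)
  have hi' : A (N + i + 1) < (r + 1 / 1000) * A (N + i) := (div_lt_iff₀ (Apos i)).1 hi
  have m1 := main (N + i + 1) (by omega)
  have a1 := As (N + i)
  have a3 := As (N + i + 1 + 1)
  have b1 : r * A (N + i + 1) ≤ A (N + i + 1 + 1) := rle (i + 1)
  have b2 : r * A (N + i + 1 + 1) ≤ A (N + i + 1 + 1 + 1) := rle (i + 2)
  have p1 : 0 < A (N + i + 1) := Apos (i + 1)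
  have p0 := Apos i
  rw [show N + i + 1 + 2 = N + i + 1 + 1 + 1 from rfl] at m1
  generalize A (N + i + 1 + 1 + 1) = A3 at *
  generalize A (N + i + 1 + 1) = A2 at *
  generalize A (N + i + 1) = A1 at *
  generalize A (N + i) = A0 at *
  have c1 : A2 + (A3 - A2) / 20 ≤ 83 / 20 * (A1 - A0) := by linarith
  have c2 : (1 + (r - 1) / 20) * A2 ≤ 83 / 20 * (A1 - A0) := by linarith
  have c3 : (1 + (r - 1) / 20) * (r * A1) ≤ 83 / 20 * (A1 - A0) :=
    (mul_le_mul_of_nonneg_left b1 (by linarith)).trans c2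
  have c4 : (r + 1 / 1000) * ((1 + (r - 1) / 20) * (r * A1)) ≤ 83 / 20 * ((r + 1 / 1000) * A1 - A1) := by
    have := mul_le_mul_of_nonneg_left c3 (show 0 ≤ r + 1 / 1000 by linarith)
    linarith
  have c5 : 83 / 20 * ((r + 1 / 1000) - 1) < (r + 1 / 1000) * ((1 + (r - 1) / 20) * r) := by
    nlinarith [sq_nonneg (r - 19 / 10), mul_nonneg (show 0 ≤ r by linarith) (sq_nonneg (r - 19 / 10))]
  nlinarith [mul_lt_mul_of_pos_right c5 p1]

lemma le_ET (y : ℕ → ℝ) (h : ℝ) : ETc (19 / 20) y h ≤ ET (19 / 20) y h := by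
  refine lintegral_mono fun t => ENNReal.ofReal_le_ofReal ?_
  unfold surv
  split_ifs
  · positivity
  · exact le_rfl

lemma eq_ET (y : ℕ → ℝ) (h : ℝ) (hn : ∀ j, y j ≠ h) : ETc (19 / 20) y h = ET (19 / 20) y h := by
  refine lintegral_congr fun t => ?_
  unfold surv
  rw [if_neg]
  rintro ⟨i, hi, -⟩
  exact hn _ hi

theorem result : ∃ p ∈ Ioo (0 : ℝ) 1, ∃ y, IsTraj y ∧
    CRc p y < ⨅ (z : ℕ → ℝ) (_ : IsTraj z ∧ CycMon z), CRc p z := by
  refine ⟨19 / 20, ⟨by norm_num, by norm_num⟩, Y, trajY, ?_⟩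
  have h1 : CRc (19 / 20) Y ≤ ENNReal.ofReal (19 / 20 * (919 / 100)) := by
    refine iSup₂_le fun h hh => ?_
    refine ENNReal.div_le_of_le_mul ?_
    refine (mul_le_mul_right ((le_ET Y h).trans (upper h hh)) _).trans (le_of_eq ?_)
    rw [← ENNReal.ofReal_mul (by norm_num), ← ENNReal.ofReal_mul (by norm_num)]
    congr 1; ring
  refine h1.trans_lt (lt_of_lt_of_le (b := ENNReal.ofReal (19 / 20 * (46 / 5)))
    ((ENNReal.ofReal_lt_ofReal_iff (by norm_num)).2 (by norm_num)) (le_iInf₂ fun z hz => ?_))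
  by_contra hlt
  refine lower' z hz.1 hz.2 fun h hh hn => ?_
  have h2 : ENNReal.ofReal (19 / 20) * ETc (19 / 20) z h / ENNReal.ofReal |h| ≤
      ENNReal.ofReal (19 / 20 * (46 / 5)) :=
    (le_iSup₂ (f := fun (h : ℝ) (_ : 1 ≤ |h|) =>
      ENNReal.ofReal (19 / 20) * ETc (19 / 20) z h / ENNReal.ofReal |h|) h hh).trans (not_le.1 hlt).le
  rw [ENNReal.div_le_iff (by simpa using fun e => by simp [e] at hh; linarith) ENNReal.ofReal_ne_top,
    ENNReal.ofReal_mul (by norm_num), mul_assoc,
    ENNReal.mul_le_mul_iff_right (by simp) ENNReal.ofReal_ne_top,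
    ← ENNReal.ofReal_mul (by norm_num), eq_ET z h hn] at h2
  exact h2

end Pool.Agent.Results.MP_d94893_lc.LineFails
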